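import Pool.Agent.Helper78.GM.Hyp

/-! # Modules ALN and FAR -/

set_option autoImplicit false

open scoped UpperHalfPlane MatrixGroups ComplexConjugate
open UpperHalfPlane

namespace Pool.Agent.Helper12.GM

variable {Γ : Type} [Group Γ]

/-- `2 cosh dist (i y₁, A (i y₂))` -/
theorem aln_cosh (A : SL(2, ℝ)) (y₁ y₂ : ℝ) (h₁ : 0 < y₁) (h₂ : 0 < y₂) :
    2 * Real.cosh (dist (hpt 0 y₁ h₁) (A • hpt 0 y₂ h₂)) =
      A.1 0 0 ^ 2 * (y₂ / y₁) + A.1 0 1 ^ 2 * (1 / (y₁ * y₂)) + A.1 1 0 ^ 2 * (y₁ * y₂) +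
        A.1 1 1 ^ 2 * (y₁ / y₂) := by
  have hdet := A.det_coe
  rw [Matrix.det_fin_two] at hdet
  have h1 := sl_den_pos A (hpt 0 y₂ h₂)
  rw [hyp_two_cosh, sl_im, sl_re]
  simp only [hpt_re, hpt_im] at h1 ⊢
  set a := A.1 0 0
  set b := A.1 0 1
  set c := A.1 1 0
  set d := A.1 1 1
  have hE : (c * 0 + d) ^ 2 + (c * y₂) ^ 2 = d ^ 2 + c ^ 2 * y₂ ^ 2 := by ring
  rw [hE] at h1 ⊢
  have key : (a * c * y₂ ^ 2 + b * d) ^ 2 + y₂ ^ 2 =
      (a ^ 2 * y₂ ^ 2 + b ^ 2) * (d ^ 2 + c ^ 2 * y₂ ^ 2) := by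
    have h3 : (a * d - b * c) ^ 2 * y₂ ^ 2 = y₂ ^ 2 := by rw [hdet]; ring
    linear_combination -h3
  obtain ⟨D, hD⟩ : ∃ D, D = d ^ 2 + c ^ 2 * y₂ ^ 2 := ⟨_, rfl⟩
  rw [← hD] at key h1 ⊢
  have hne₁ := h₁.ne'
  have hne₂ := h₂.ne'
  have hD0 := h1.ne'
  have hN : a * c * (0 ^ 2 + y₂ ^ 2) + (a * d + b * c) * 0 + b * d = a * c * y₂ ^ 2 + b * d := by
    ring
  rw [hN]
  obtain ⟨N, hNN⟩ : ∃ N, N = a * c * y₂ ^ 2 + b * d := ⟨_, rfl⟩
  rw [← hNN] at key ⊢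
  have hnum : (0 - N / D) ^ 2 + y₁ ^ 2 + (y₂ / D) ^ 2 =
      (a ^ 2 * y₂ ^ 2 + b ^ 2) / D + y₁ ^ 2 := by
    field_simp
    linear_combination key
  rw [hnum]
  have h5 : ((a ^ 2 * y₂ ^ 2 + b ^ 2) / D + y₁ ^ 2) / (y₁ * (y₂ / D)) =
      ((a ^ 2 * y₂ ^ 2 + b ^ 2) + y₁ ^ 2 * D) / (y₁ * y₂) := by
    field_simp
  rw [h5, hD]
  field_simp
  ring

/-- distance from `i` to `i y` -/
theorem aln_log (y : ℝ) (h : 0 < y) : dist (I : ℍ) (hpt 0 y h) = |Real.log y| := by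
  rw [UpperHalfPlane.dist_of_re_eq (by rw [hpt_re, UpperHalfPlane.I_re]), hpt_im,
    UpperHalfPlane.I_im, Real.log_one, Real.dist_eq, zero_sub, abs_neg]

theorem aln_exp (A : SL(2, ℝ)) (m : ℝ) (hm : 0 < m) (hA : ∀ i j, m ≤ A.1 i j ^ 2) (y₁ y₂ : ℝ)
    (h₁ : 0 < y₁) (h₂ : 0 < y₂) : |Real.log y₁| + |Real.log y₂| ≤
      dist (hpt 0 y₁ h₁) (A • hpt 0 y₂ h₂) + (Real.log 2 - Real.log m) := by
  have h := aln_cosh A y₁ y₂ h₁ h₂
  have h2 := hyp_le_exp (hpt 0 y₁ h₁) (A • hpt 0 y₂ h₂)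
  set D := dist (hpt 0 y₁ h₁) (A • hpt 0 y₂ h₂) with hD
  have p1 : 0 < A.1 0 0 ^ 2 * (y₂ / y₁) := mul_pos (lt_of_lt_of_le hm (hA 0 0)) (by positivity)
  have p2 : 0 < A.1 0 1 ^ 2 * (1 / (y₁ * y₂)) :=
    mul_pos (lt_of_lt_of_le hm (hA 0 1)) (by positivity)
  have p3 : 0 < A.1 1 0 ^ 2 * (y₁ * y₂) := mul_pos (lt_of_lt_of_le hm (hA 1 0)) (by positivity)
  have p4 : 0 < A.1 1 1 ^ 2 * (y₁ / y₂) := mul_pos (lt_of_lt_of_le hm (hA 1 1)) (by positivity)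
  -- each of the four terms is a lower bound
  have key : ∀ T : ℝ, 0 < T → m * T ≤ 2 * Real.exp D → Real.log T ≤
      D + (Real.log 2 - Real.log m) := by
    intro T hT hle
    have h3 := Real.log_le_log (by positivity) hle
    rw [Real.log_mul hm.ne' hT.ne', Real.log_mul (by norm_num) (Real.exp_pos _).ne',
      Real.log_exp] at h3
    linarith
  have l1 := key (y₂ / y₁) (by positivity) (by
    have := mul_le_mul_of_nonneg_right (hA 0 0) (show 0 ≤ y₂ / y₁ by positivity)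
    linarith)
  have l2 := key (1 / (y₁ * y₂)) (by positivity) (by
    have := mul_le_mul_of_nonneg_right (hA 0 1) (show 0 ≤ 1 / (y₁ * y₂) by positivity)
    linarith)
  have l3 := key (y₁ * y₂) (by positivity) (by
    have := mul_le_mul_of_nonneg_right (hA 1 0) (show 0 ≤ y₁ * y₂ by positivity)
    linarith)
  have l4 := key (y₁ / y₂) (by positivity) (by
    have := mul_le_mul_of_nonneg_right (hA 1 1) (show 0 ≤ y₁ / y₂ by positivity)
    linarith)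
  rw [Real.log_div h₂.ne' h₁.ne'] at l1
  rw [Real.log_div one_ne_zero (by positivity), Real.log_one, Real.log_mul h₁.ne' h₂.ne'] at l2
  rw [Real.log_mul h₁.ne' h₂.ne'] at l3
  rw [Real.log_div h₁.ne' h₂.ne'] at l4
  rcases abs_cases (Real.log y₁) with ⟨e, -⟩ | ⟨e, -⟩ <;>
    rcases abs_cases (Real.log y₂) with ⟨e', -⟩ | ⟨e', -⟩ <;> rw [e, e'] <;> linarith

theorem st_ALN : ST_ALN := by
  intro Γ _ X κ Θ hκ _ a ha
  obtain ⟨p, q, r, s, hp, hq, hr, hs, _, hM⟩ := ha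
  -- the entries are bounded below
  obtain ⟨m, hm, hA⟩ : ∃ m : ℝ, 0 < m ∧ ∀ i j, m ≤ (X.M a).1 i j ^ 2 := by
    refine ⟨min (min (p ^ 2) (q ^ 2)) (min (r ^ 2) (s ^ 2)), by positivity, fun i j => ?_⟩
    have e1 : min (min (p ^ 2) (q ^ 2)) (min (r ^ 2) (s ^ 2)) ≤ p ^ 2 :=
      (min_le_left _ _).trans (min_le_left _ _)
    have e2 : min (min (p ^ 2) (q ^ 2)) (min (r ^ 2) (s ^ 2)) ≤ q ^ 2 :=
      (min_le_left _ _).trans (min_le_right _ _)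
    have e3 : min (min (p ^ 2) (q ^ 2)) (min (r ^ 2) (s ^ 2)) ≤ r ^ 2 :=
      (min_le_right _ _).trans (min_le_left _ _)
    have e4 : min (min (p ^ 2) (q ^ 2)) (min (r ^ 2) (s ^ 2)) ≤ s ^ 2 :=
      (min_le_right _ _).trans (min_le_right _ _)
    generalize min (min (p ^ 2) (q ^ 2)) (min (r ^ 2) (s ^ 2)) = m at e1 e2 e3 e4
    rcases hM with h | h
    · rw [h]
      fin_cases i <;> fin_cases j
      · simpa using e1
      · simpa using e2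
      · simpa using e3
      · simpa using e4
    · rw [h]
      fin_cases i <;> fin_cases j
      · simpa using e1
      · simpa using e2
      · simpa using e3
      · simpa using e4
  refine ⟨4 * (κ ^ 2 + 2) + (Real.log 2 - Real.log m), fun x hx y hy => ?_⟩
  have hx' : |(X.M x • (I : ℍ)).re| ≤ κ * (X.M x • (I : ℍ)).im := hx
  have hy' : |(X.M y • (I : ℍ)).re| ≤ κ * (X.M y • (I : ℍ)).im := hy
  have h1 := hyp_axis _ κ hx'
  have h2 := hyp_axis _ κ hy'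
  rw [← X.dist_orbit, X.act]
  unfold Fuchs.L
  set z := X.M x • (I : ℍ) with hz
  set w := X.M y • (I : ℍ) with hw
  have h3 := aln_exp (X.M a) m hm hA z.im w.im z.im_pos w.im_pos
  have h4 : dist (I : ℍ) z ≤ |Real.log z.im| + (κ ^ 2 + 2) := by
    have := dist_triangle (I : ℍ) (hpt 0 z.im z.im_pos) z
    rw [aln_log, dist_comm (hpt 0 z.im z.im_pos) z] at this
    linarith
  have h5 : dist (I : ℍ) w ≤ |Real.log w.im| + (κ ^ 2 + 2) := by
    have := dist_triangle (I : ℍ) (hpt 0 w.im w.im_pos) w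
    rw [aln_log, dist_comm (hpt 0 w.im w.im_pos) w] at this
    linarith
  have h6 : dist (hpt 0 z.im z.im_pos) (X.M a • hpt 0 w.im w.im_pos) ≤
      dist z (X.M a • w) + 2 * (κ ^ 2 + 2) := by
    have t1 := dist_triangle (hpt 0 z.im z.im_pos) z (X.M a • hpt 0 w.im w.im_pos)
    have t2 := dist_triangle z (X.M a • w) (X.M a • hpt 0 w.im w.im_pos)
    rw [dist_smul_H] at t2
    rw [dist_comm _ z] at t1
    linarith
  linarith

theorem st_FAR : ST_FAR := by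
  intro Γ _ X R κ κ₂ hR hc hκ hκ₂
  refine ⟨κ₂ ^ 2 + 2 + R, fun u hu hu₂ => ?_⟩
  set z := X.M u • (I : ℍ) with hz
  have hzim := z.im_pos
  have h1 : z.re < -κ * z.im := hu
  have h2 : ¬ z.re < -κ₂ * z.im := hu₂
  rw [not_lt] at h2
  have hs : 0 ≤ Real.sinh (R / 2) := Real.sinh_nonneg_iff.2 (by linarith)
  have hκ0 : 0 ≤ κ := le_trans (by positivity) hκ
  have h3 : |z.re| ≤ κ₂ * z.im := by
    rw [abs_le]
    constructor
    · linarith
    · have : 0 ≤ κ * z.im := by positivity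
      have : 0 ≤ κ₂ * z.im := mul_nonneg (hκ0.trans hκ₂) hzim.le
      linarith
  have h4 := hyp_axis z κ₂ h3
  obtain ⟨g, hg⟩ := hc (hpt 0 z.im hzim)
  refine ⟨g, ?_, ?_⟩
  · change |(X.M g • (I : ℍ)).re| ≤ κ * (X.M g • (I : ℍ)).im
    set w := X.M g • (I : ℍ) with hw
    have h5 := hyp_re_le w (hpt 0 z.im hzim) R (by rw [dist_comm]; exact hg)
    rw [hpt_re, sub_zero] at h5
    exact h5.trans (mul_le_mul_of_nonneg_right hκ w.im_pos.le)
  · rw [← X.dist_orbit]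
    exact (dist_triangle _ (hpt 0 z.im hzim) _).trans (add_le_add h4 hg)

end Pool.Agent.Helper12.GM
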