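import Pool.Agent.Helper78.GM.Hyp

/-! # Modules FOUR, GEODH, NORM, DEEP -/

set_option autoImplicit false

open scoped UpperHalfPlane MatrixGroups ComplexConjugate
open UpperHalfPlane

namespace Pool.Agent.Helper12.GM

/-- `|z - conj w|` -/
noncomputable def rho (z w : ℍ) : ℝ := dist (z : ℂ) (conj (w : ℂ))

theorem rho_sq (z w : ℍ) : rho z w ^ 2 = (z.re - w.re) ^ 2 + (z.im + w.im) ^ 2 := by
  unfold rho
  rw [Complex.dist_eq, Complex.sq_norm, Complex.normSq_apply]
  simp only [Complex.sub_re, Complex.sub_im, Complex.conj_re, Complex.conj_im,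
    UpperHalfPlane.coe_re, UpperHalfPlane.coe_im]
  ring

theorem rho_nonneg (z w : ℍ) : 0 ≤ rho z w := dist_nonneg

theorem rho_comm (z w : ℍ) : rho z w = rho w z := by
  have h : rho z w ^ 2 = rho w z ^ 2 := by rw [rho_sq, rho_sq]; ring
  exact (sq_eq_sq₀ (rho_nonneg z w) (rho_nonneg w z)).1 h

theorem rho_tri (x y w : ℍ) : rho x y ≤ rho x w + rho w y := by
  have h1 : rho x y ≤ rho x w + dist (conj (w : ℂ)) (conj (y : ℂ)) := by
    unfold rho
    exact dist_triangle _ _ _
  have h2 : dist (conj (w : ℂ)) (conj (y : ℂ)) ≤ rho w y := by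
    refine le_of_sq_le_sq ?_ (rho_nonneg w y)
    rw [rho_sq, Complex.dist_eq, Complex.sq_norm, Complex.normSq_apply]
    simp only [Complex.sub_re, Complex.sub_im, Complex.conj_re, Complex.conj_im,
      UpperHalfPlane.coe_re, UpperHalfPlane.coe_im]
    have := w.im_pos
    have := y.im_pos
    nlinarith [mul_pos w.im_pos y.im_pos]
  linarith

/-- `4 cosh² (d/2)` -/
theorem rho_exp (z w : ℍ) : Real.exp (dist z w) * (z.im * w.im) ≤ rho z w ^ 2 ∧
    rho z w ^ 2 ≤ 4 * Real.exp (dist z w) * (z.im * w.im) := by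
  have h1 := hyp_two_cosh z w
  have hz := z.im_pos
  have hw := w.im_pos
  have hzw := mul_pos hz hw
  have h2 : rho z w ^ 2 = (2 * Real.cosh (dist z w) + 2) * (z.im * w.im) := by
    rw [rho_sq, h1]
    field_simp
    ring
  have h3 := hyp_exp_le z w
  have h4 := hyp_le_exp z w
  have h5 : 1 ≤ Real.exp (dist z w) := Real.one_le_exp dist_nonneg
  rw [h2]
  constructor
  · exact mul_le_mul_of_nonneg_right (by linarith) hzw.le
  · exact mul_le_mul_of_nonneg_right (by linarith) hzw.le

/-- quasi Ptolemy inequality -/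
theorem rho_ptolemy (x y z w : ℍ) :
    rho x z * rho y w ≤ 4 * max (rho x y * rho z w) (rho x w * rho y z) := by
  have p1 := rho_nonneg x y
  have p2 := rho_nonneg z w
  have p3 := rho_nonneg x w
  have p4 := rho_nonneg y z
  have p5 := rho_nonneg x z
  have p6 := rho_nonneg y w
  -- the two diagonals through the four triangles
  have t1 : rho x z ≤ rho x y + rho y z := rho_tri x z y
  have t2 : rho x z ≤ rho x w + rho z w := by rw [rho_comm z w]; exact rho_tri x z w
  have t3 : rho y w ≤ rho x y + rho x w := by rw [rho_comm x y]; exact rho_tri y w x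
  have t4 : rho y w ≤ rho y z + rho z w := rho_tri y w z
  -- one of the sides is minimal
  by_cases hA : rho x y ≤ rho y z ∧ rho x y ≤ rho x w
  · have h1 : rho x z * rho y w ≤ (2 * rho y z) * (2 * rho x w) :=
      mul_le_mul (by linarith [hA.1]) (by linarith [hA.2]) p6 (by linarith)
    have h2 := le_max_right (rho x y * rho z w) (rho x w * rho y z)
    nlinarith
  · by_cases hB : rho z w ≤ rho y z ∧ rho z w ≤ rho x w
    · have h1 : rho x z * rho y w ≤ (2 * rho x w) * (2 * rho y z) :=
        mul_le_mul (by linarith [hB.2]) (by linarith [hB.1]) p6 (by linarith)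
      have h2 := le_max_right (rho x y * rho z w) (rho x w * rho y z)
      nlinarith
    · by_cases hC : rho y z ≤ rho x y ∧ rho y z ≤ rho z w
      · have h1 : rho x z * rho y w ≤ (2 * rho x y) * (2 * rho z w) :=
          mul_le_mul (by linarith [hC.1]) (by linarith [hC.2]) p6 (by linarith)
        have h2 := le_max_left (rho x y * rho z w) (rho x w * rho y z)
        nlinarith
      · have hD : rho x w ≤ rho x y ∧ rho x w ≤ rho z w := by
          rw [not_and_or, not_le, not_le] at hA hB hC
          constructor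
          · by_contra hc
            rw [not_le] at hc
            rcases hA with h | h <;> rcases hB with h' | h' <;> rcases hC with h'' | h'' <;>
              linarith
          · by_contra hc
            rw [not_le] at hc
            rcases hA with h | h <;> rcases hB with h' | h' <;> rcases hC with h'' | h'' <;>
              linarith
        have h1 : rho x z * rho y w ≤ (2 * rho z w) * (2 * rho x y) :=
          mul_le_mul (by linarith [hD.2]) (by linarith [hD.1]) p6 (by linarith)
        have h2 := le_max_left (rho x y * rho z w) (rho x w * rho y z)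
        nlinarith

theorem st_FOUR : ST_FOUR := by
  intro x y z w
  have hx := x.im_pos
  have hy := y.im_pos
  have hz := z.im_pos
  have hw := w.im_pos
  have hP : 0 < x.im * y.im * z.im * w.im := by positivity
  -- lower bound of the left side
  have h1 : Real.exp (dist x z + dist y w) * (x.im * y.im * z.im * w.im) ≤
      (rho x z * rho y w) ^ 2 := by
    have a := (rho_exp x z).1
    have b := (rho_exp y w).1
    have c := mul_le_mul a b (by positivity) (by positivity)
    rw [mul_pow, Real.exp_add]
    refine le_trans (le_of_eq ?_) c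
    ring
  have h2 : (rho x z * rho y w) ^ 2 ≤
      (4 * max (rho x y * rho z w) (rho x w * rho y z)) ^ 2 :=
    pow_le_pow_left₀ (mul_nonneg (rho_nonneg _ _) (rho_nonneg _ _)) (rho_ptolemy x y z w) 2
  have key : ∀ a b c d : ℍ, a.im * b.im * c.im * d.im = x.im * y.im * z.im * w.im →
      (rho a b * rho c d) ^ 2 ≤
        16 * Real.exp (dist a b + dist c d) * (x.im * y.im * z.im * w.im) := by
    intro a b c d h
    have e1 := (rho_exp a b).2
    have e2 := (rho_exp c d).2
    have ha := a.im_pos
    have hb := b.im_pos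
    have hc := c.im_pos
    have hd := d.im_pos
    have e3 := mul_le_mul e1 e2 (sq_nonneg _) (by positivity)
    rw [mul_pow, Real.exp_add, ← h]
    refine e3.trans (le_of_eq ?_)
    ring
  have hlog : Real.exp (8 * Real.log 2) = 256 := by
    rw [mul_comm, Real.exp_mul, Real.exp_log (by norm_num)]
    norm_num
  have hmain : Real.exp (dist x z + dist y w) ≤
      Real.exp (max (dist x y + dist z w) (dist x w + dist y z) + 8 * Real.log 2) := by
    rw [Real.exp_add _ (8 * Real.log 2), hlog]
    rcases le_total (rho x y * rho z w) (rho x w * rho y z) with h | h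
    · rw [max_eq_right h] at h2
      have h3 := key x w y z (by ring)
      have h4 : Real.exp (dist x z + dist y w) * (x.im * y.im * z.im * w.im) ≤
          (Real.exp (dist x w + dist y z) * 256) * (x.im * y.im * z.im * w.im) := by
        have : (4 * (rho x w * rho y z)) ^ 2 = 16 * (rho x w * rho y z) ^ 2 := by ring
        rw [this] at h2
        linarith
      have h5 := le_of_mul_le_mul_right h4 hP
      refine h5.trans (mul_le_mul_of_nonneg_right ?_ (by norm_num))
      exact Real.exp_le_exp.2 (le_max_right _ _)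
    · rw [max_eq_left h] at h2
      have h3 := key x y z w rfl
      have h4 : Real.exp (dist x z + dist y w) * (x.im * y.im * z.im * w.im) ≤
          (Real.exp (dist x y + dist z w) * 256) * (x.im * y.im * z.im * w.im) := by
        have : (4 * (rho x y * rho z w)) ^ 2 = 16 * (rho x y * rho z w) ^ 2 := by ring
        rw [this] at h2
        linarith
      have h5 := le_of_mul_le_mul_right h4 hP
      refine h5.trans (mul_le_mul_of_nonneg_right ?_ (by norm_num))
      exact Real.exp_le_exp.2 (le_max_left _ _)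
  exact Real.exp_le_exp.1 hmain

/-! ## GEODH -/

/-- the vertical segment above `x` -/
theorem geodh_vert (x y : ℍ) (H h : ℝ) (hh : 0 < h) (h1 : x.im ≤ h) (h2 : h ≤ H)
    (hy : y.im ≤ H) (hr : |x.re - y.re| ≤ H) :
    dist x (hpt x.re h hh) = Real.log h - Real.log x.im ∧
    Real.exp (dist (hpt x.re h hh) y) * (h * y.im) ≤ 5 * H ^ 2 := by
  have hx := x.im_pos
  have hy0 := y.im_pos
  constructor
  · rw [UpperHalfPlane.dist_of_re_eq (by rw [hpt_re]), hpt_im, Real.dist_eq, abs_sub_comm,
      abs_of_nonneg]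
    exact sub_nonneg.2 (Real.log_le_log hx h1)
  · have h3 := (rho_exp (hpt x.re h hh) y).1
    rw [rho_sq, hpt_im, hpt_re] at h3
    refine h3.trans ?_
    have h4 : (x.re - y.re) ^ 2 ≤ H ^ 2 := by
      rw [← sq_abs]
      exact pow_le_pow_left₀ (abs_nonneg _) hr 2
    have h5 : (h + y.im) ^ 2 ≤ (2 * H) ^ 2 := pow_le_pow_left₀ (by positivity) (by linarith) 2
    nlinarith

theorem st_GEODH : ST_GEODH := by
  -- `t` is short: go up from `x`
  have key : ∀ (x y : ℍ) (H : ℝ), x.im ≤ H → y.im ≤ H → |x.re - y.re| ≤ H →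
      H ^ 2 ≤ 4 * Real.exp (dist x y) * (x.im * y.im) →
      ∀ t : ℝ, 0 ≤ t → t ≤ Real.log H - Real.log x.im →
      ∃ p : ℍ, dist x p ≤ t + 6 ∧ dist p y ≤ dist x y - t + 6 := by
    intro x y H hxH hyH hr hd t ht0 ht
    have hx := x.im_pos
    have hy := y.im_pos
    have hH : 0 < H := lt_of_lt_of_le hx hxH
    have hh : 0 < x.im * Real.exp t := by positivity
    have hlog : Real.log (x.im * Real.exp t) = Real.log x.im + t := by
      rw [Real.log_mul hx.ne' (Real.exp_pos t).ne', Real.log_exp]
    have h1 : x.im ≤ x.im * Real.exp t := by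
      have := Real.one_le_exp ht0
      nlinarith
    have h2 : x.im * Real.exp t ≤ H := by
      rw [← Real.log_le_log_iff hh hH, hlog]
      linarith
    obtain ⟨e1, e2⟩ := geodh_vert x y H _ hh h1 h2 hyH hr
    refine ⟨hpt x.re _ hh, ?_, ?_⟩
    · rw [e1, hlog]; linarith
    · have e3 : Real.exp (dist (hpt x.re _ hh) y) * (x.im * Real.exp t * y.im) ≤
          20 * Real.exp (dist x y) * (x.im * y.im) := by
        have : 5 * H ^ 2 ≤ 20 * Real.exp (dist x y) * (x.im * y.im) := by linarith
        exact e2.trans this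
      have e4 : Real.exp (dist (hpt x.re _ hh) y + t) ≤ Real.exp (dist x y + 6) := by
        have e5 : Real.exp (dist (hpt x.re _ hh) y) * Real.exp t ≤ 20 * Real.exp (dist x y) := by
          refine le_of_mul_le_mul_right ?_ (mul_pos hx hy)
          calc _ = Real.exp (dist (hpt x.re _ hh) y) * (x.im * Real.exp t * y.im) := by ring
            _ ≤ _ := e3
        have e6 : (20 : ℝ) ≤ Real.exp 6 := by
          have h7 : (2 : ℝ) ≤ Real.exp 1 := by
            have := Real.add_one_le_exp (1 : ℝ)
            linarith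
          have h8 : Real.exp 6 = Real.exp 1 ^ 6 := by
            rw [← Real.exp_nat_mul]; norm_num
          rw [h8]
          calc (20 : ℝ) ≤ 2 ^ 6 := by norm_num
            _ ≤ _ := pow_le_pow_left₀ (by norm_num) h7 6
        rw [Real.exp_add, Real.exp_add]
        have := Real.exp_pos (dist x y)
        nlinarith
      have := Real.exp_le_exp.1 e4
      linarith
  intro x y t ht0 ht
  have hx := x.im_pos
  have hy := y.im_pos
  set H := max (|x.re - y.re|) (max x.im y.im) with hHdef
  have hxH : x.im ≤ H := (le_max_left _ _).trans (le_max_right _ _)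
  have hyH : y.im ≤ H := (le_max_right _ _).trans (le_max_right _ _)
  have hrH : |x.re - y.re| ≤ H := le_max_left _ _
  have hH : 0 < H := lt_of_lt_of_le hx hxH
  have hd : H ^ 2 ≤ 4 * Real.exp (dist x y) * (x.im * y.im) := by
    refine le_trans ?_ (rho_exp x y).2
    rw [rho_sq]
    rcases max_cases (|x.re - y.re|) (max x.im y.im) with ⟨h, -⟩ | ⟨h, -⟩
    · rw [← hHdef] at h
      rw [h, sq_abs]
      nlinarith [sq_nonneg (x.im + y.im)]
    · rw [← hHdef] at h
      rcases max_cases x.im y.im with ⟨h', -⟩ | ⟨h', -⟩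
      · rw [h, h']
        nlinarith [sq_nonneg (x.re - y.re), mul_pos hx hy, sq_nonneg y.im]
      · rw [h, h']
        nlinarith [sq_nonneg (x.re - y.re), mul_pos hx hy, sq_nonneg x.im]
  by_cases h1 : t ≤ Real.log H - Real.log x.im
  · exact key x y H hxH hyH hrH hd t ht0 h1
  by_cases h2 : dist x y - t ≤ Real.log H - Real.log y.im
  · obtain ⟨p, hp1, hp2⟩ := key y x H hyH hxH (by rw [abs_sub_comm]; exact hrH)
      (by rw [dist_comm, mul_comm y.im]; exact hd) (dist x y - t) (by linarith) h2
    refine ⟨p, ?_, ?_⟩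
    · rw [dist_comm x p, dist_comm y x] at *
      linarith
    · rw [dist_comm p y]
      linarith
  · rw [not_le] at h1 h2
    obtain ⟨e1, e2⟩ := geodh_vert x y H H hH hxH le_rfl hyH hrH
    refine ⟨hpt x.re H hH, ?_, ?_⟩
    · rw [e1]; linarith
    · have e3 : Real.exp (dist (hpt x.re H hH) y) * y.im ≤ 5 * H := by
        refine le_of_mul_le_mul_right ?_ hH
        calc _ = Real.exp (dist (hpt x.re H hH) y) * (H * y.im) := by ring
          _ ≤ 5 * H ^ 2 := e2
          _ = _ := by ring
      have e4 : dist (hpt x.re H hH) y + Real.log y.im ≤ Real.log 5 + Real.log H := by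
        have := Real.log_le_log (by positivity) e3
        rwa [Real.log_mul (Real.exp_pos _).ne' hy.ne', Real.log_exp,
          Real.log_mul (by norm_num) hH.ne'] at this
      have e5 : Real.log 5 ≤ 6 := by
        have := Real.log_le_sub_one_of_pos (show (0 : ℝ) < 5 by norm_num)
        linarith
      linarith

/-! ## NORM -/

theorem st_NORM : ST_NORM := by
  intro A
  have hdet := A.det_coe
  rw [Matrix.det_fin_two] at hdet
  have h1 := sl_den_pos A I
  rw [hyp_two_cosh, sl_im, sl_re]
  simp only [UpperHalfPlane.I_re, UpperHalfPlane.I_im] at h1 ⊢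
  unfold nsq
  set a := A.1 0 0
  set b := A.1 0 1
  set c := A.1 1 0
  set d := A.1 1 1
  have hD : 0 < c ^ 2 + d ^ 2 := by
    have e : (c * 0 + d) ^ 2 + (c * 1) ^ 2 = c ^ 2 + d ^ 2 := by ring
    rwa [e] at h1
  have e : (c * 0 + d) ^ 2 + (c * 1) ^ 2 = c ^ 2 + d ^ 2 := by ring
  rw [e]
  have key : (a * c + b * d) ^ 2 + 1 = (a ^ 2 + b ^ 2) * (c ^ 2 + d ^ 2) := by
    have : (a * d - b * c) ^ 2 = 1 := by rw [hdet]; norm_num
    nlinarith
  have hnum : (0 - (a * c * (0 ^ 2 + 1 ^ 2) + (a * d + b * c) * 0 + b * d) /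
      (c ^ 2 + d ^ 2)) ^ 2 + 1 ^ 2 + (1 / (c ^ 2 + d ^ 2)) ^ 2 =
      (a ^ 2 + b ^ 2 + c ^ 2 + d ^ 2) / (c ^ 2 + d ^ 2) := by
    field_simp
    linear_combination key
  rw [hnum]
  field_simp

/-! ## DEEP -/

theorem st_DEEP : ST_DEEP := by
  intro κ r hκ hr
  have hs : 0 ≤ Real.sinh (r / 2) := Real.sinh_nonneg_iff.2 (by linarith)
  have he : 0 < Real.exp (r / 2) := Real.exp_pos _
  have he1 : 1 ≤ Real.exp r := Real.one_le_exp hr
  refine ⟨κ * Real.exp r + 2 * Real.sinh (r / 2) * Real.exp (r / 2), ?_, fun z w hzw hz => ?_⟩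
  · have : κ ≤ κ * Real.exp r := le_mul_of_one_le_right hκ he1
    have : 0 ≤ 2 * Real.sinh (r / 2) * Real.exp (r / 2) := by positivity
    linarith
  · have h1 := hyp_re_le z w r hzw
    have h2 : w.im ≤ Real.exp r * z.im :=
      (hyp_im_le z w).trans (mul_le_mul_of_nonneg_right (Real.exp_le_exp.2 hzw) z.im_pos.le)
    have h3 := (abs_le.1 h1).1
    have h4 : κ * w.im ≤ κ * (Real.exp r * z.im) := mul_le_mul_of_nonneg_left h2 hκ
    nlinarith

end Pool.Agent.Helper12.GM
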