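import Pool.Agent.Helper12.GM.Stmts

/-! # Module L2G -/

set_option autoImplicit false

namespace Pool.Agent.Helper12.GM

theorem st_L2G : ST_L2G := by
  intro Γ _ Q C₁
  have hC := Q.one_le_C
  have ha := le_abs_self C₁
  have ha0 := abs_nonneg C₁
  refine ⟨|C₁| + Q.C + 1, |C₁| + Q.C, by linarith, fun h hh hH n hn => ?_⟩
  induction n, hn using Nat.le_induction with
  | base =>
    rw [pow_one, show 1 + 1 = 2 from rfl, pow_two]
    linarith
  | succ k hk ih =>
    have h4 := Q.four 1 (h ^ k) (h ^ (k + 1)) (h ^ (k + 2))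
    have e1 : (1 : Γ)⁻¹ * h ^ (k + 1) = h ^ (k + 1) := by simp
    have e2 : (h ^ k)⁻¹ * h ^ (k + 2) = h * h := by
      rw [pow_add, inv_mul_cancel_left, pow_two]
    have e3 : (1 : Γ)⁻¹ * h ^ k = h ^ k := by simp
    have e4 : (h ^ (k + 1))⁻¹ * h ^ (k + 2) = h := by
      rw [show k + 2 = k + 1 + 1 from rfl, pow_succ h (k + 1), inv_mul_cancel_left]
    have e5 : (1 : Γ)⁻¹ * h ^ (k + 2) = h ^ (k + 2) := by simp
    have e6 : (h ^ k)⁻¹ * h ^ (k + 1) = h := by
      rw [pow_succ, inv_mul_cancel_left]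
    rw [e1, e2, e3, e4, e5, e6] at h4
    rcases le_total (Q.L (h ^ k) + Q.L h) (Q.L (h ^ (k + 2)) + Q.L h) with h5 | h5
    · rw [max_eq_right h5] at h4
      change Q.L (h ^ (k + 1)) + Q.L h ≤ Q.L (h ^ (k + 2)) + (|C₁| + Q.C)
      linarith
    · rw [max_eq_left h5] at h4
      exfalso
      linarith

end Pool.Agent.Helper12.GM
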