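import Pool.Agent.Helper78.GM.QADD

/-! # Modules LIN and SYM -/

set_option autoImplicit false

namespace Pool.Agent.Helper12.GM

open Filter Topology

variable {Γ : Type} [Group Γ]

/-- closing up: a bounded modification is cyclically aligned -/
theorem lin_close (Q : Geo Γ) : ∃ Cf C₁ : ℝ, 0 ≤ Cf ∧ ∀ g : Γ, ∃ f : Γ, Q.L f ≤ Cf ∧
    2 * Q.L (g * f) ≤ Q.L (g * f * (g * f)) + C₁ := by
  obtain ⟨Cf, hCf⟩ : ∃ Cf : ℝ, ∀ f ∈ Q.F, Q.L f ≤ Cf := by
    obtain ⟨B, hB⟩ := (Q.F.finite_toSet.image Q.L).bddAbove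
    exact ⟨B, fun f hf => hB ⟨f, hf, rfl⟩⟩
  refine ⟨max Cf 0, Q.C + 3 * max Cf 0, le_max_right _ _, fun g => ?_⟩
  obtain ⟨f, hf, h1⟩ := Q.conn g g
  have h2 : Q.L f ≤ max Cf 0 := (hCf f hf).trans (le_max_left _ _)
  refine ⟨f, h2, ?_⟩
  have h3 := Q.mul g f
  have h4 := Q.mul (g * f * (g * f)) f⁻¹
  have e : g * f * (g * f) * f⁻¹ = g * f * g := by group
  rw [e, Q.inv] at h4
  linarith

theorem lin_pow_le (Q : Geo Γ) (h : Γ) (n : ℕ) : Q.L (h ^ n) ≤ n * Q.L h := by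
  induction n with
  | zero => rw [pow_zero, Q.one]; simp
  | succ k ih =>
    rw [pow_succ]
    have := Q.mul (h ^ k) h
    push_cast
    linarith

theorem st_LIN (hL : ST_L2G) : ST_LIN := by
  intro Γ _ Q F hF hB
  obtain ⟨Cf, C₁, hCf, hcl⟩ := lin_close Q
  obtain ⟨H₁, C₂, hC₂, hL2⟩ := hL Q C₁
  obtain ⟨K₁, hK₁0, hK₁⟩ := qadd_one Q F hF C₂
  obtain ⟨K₂, hK₂0, hK₂⟩ := qadd_two Q F hF Cf
  obtain ⟨K₃, hK₃0, hK₃⟩ := qadd_ball Q F (max H₁ (C₂ + 1) + Cf)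
  obtain ⟨g, hg⟩ := hB (K₁ + K₂ + K₃ + 1)
  obtain ⟨f, hf, hal⟩ := hcl g
  -- the length of `h = g f` is large
  have hLg : max H₁ (C₂ + 1) + Cf < Q.L g := by
    by_contra hcon
    have h1 := hK₃ g (not_lt.1 hcon)
    have h2 := le_abs_self (uu Q F g)
    linarith
  have hLh : max H₁ (C₂ + 1) ≤ Q.L (g * f) := by
    have h1 := Q.mul (g * f) f⁻¹
    rw [mul_inv_cancel_right, Q.inv] at h1
    linarith
  have hH₁ : H₁ ≤ Q.L (g * f) := (le_max_left _ _).trans hLh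
  have hH₂ : C₂ + 1 ≤ Q.L (g * f) := (le_max_right _ _).trans hLh
  have hu : K₁ + 1 ≤ uu Q F (g * f) := by
    have h1 := (abs_le.1 (hK₂ g f hf).1).1
    linarith
  set h := g * f with hh
  have hgrow : ∀ n : ℕ, 1 ≤ n → (n : ℝ) ≤ uu Q F (h ^ n) ∧ (n : ℝ) ≤ Q.L (h ^ n) := by
    intro n hn
    induction n, hn using Nat.le_induction with
    | base =>
      rw [pow_one]
      constructor
      · push_cast; linarith
      · push_cast; linarith
    | succ k hk ih =>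
      have h1 := hL2 h hal hH₁ k hk
      have h2 := hK₁ (h ^ k) h (by rw [← pow_succ]; exact h1)
      rw [← pow_succ] at h2
      have h3 := (abs_le.1 h2).1
      constructor
      · push_cast; linarith [ih.1]
      · push_cast; linarith [ih.2]
  have hLpos : 0 < Q.L h + 1 := by linarith [Q.nonneg h]
  refine ⟨(Q.L h + 1)⁻¹, by positivity, fun H₀ => ?_⟩
  obtain ⟨n, hn⟩ := exists_nat_ge (max H₀ 1)
  have hn1 : 1 ≤ n := by
    have : (1 : ℝ) ≤ n := (le_max_right _ _).trans hn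
    exact_mod_cast this
  obtain ⟨h1, h2⟩ := hgrow n hn1
  refine ⟨h ^ n, ((le_max_left _ _).trans hn).trans h2, ?_⟩
  have h3 := lin_pow_le Q h n
  have hn0 : (0 : ℝ) ≤ n := Nat.cast_nonneg n
  rw [inv_mul_le_iff₀ hLpos]
  have h4 : (n : ℝ) * Q.L h ≤ (Q.L h + 1) * n := by nlinarith
  have h5 : (Q.L h + 1) * n ≤ (Q.L h + 1) * uu Q F (h ^ n) :=
    mul_le_mul_of_nonneg_left h1 hLpos.le
  linarith

/-- the limit of a subadditive sequence with almost additive lower bounds -/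
theorem sym_lim (a : ℕ → ℝ) (K : ℝ) (hK : 0 ≤ K) (hsub : ∀ m n, a (m + n) ≤ a m + a n)
    (hnn : ∀ n, 0 ≤ a n) (hlow : ∀ n, 1 ≤ n → a n + a 1 ≤ a (n + 1) + K) :
    ∃ l, Tendsto (fun n : ℕ => a n / n) atTop (𝓝 l) ∧ a 1 - K ≤ l ∧ l ≤ a 1 := by
  have hs : Subadditive a := hsub
  have hb : BddBelow (Set.range fun n : ℕ => a n / n) :=
    ⟨0, by rintro _ ⟨n, rfl⟩; exact div_nonneg (hnn n) (Nat.cast_nonneg n)⟩
  have ht := hs.tendsto_lim hb
  refine ⟨hs.lim, ht, ?_, ?_⟩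
  · refine ge_of_tendsto ht ?_
    filter_upwards [eventually_ge_atTop 1] with n hn
    have hn0 : (0 : ℝ) < n := by exact_mod_cast hn
    rw [le_div_iff₀ hn0]
    have key : ∀ n : ℕ, 1 ≤ n → (a 1 - K) * n ≤ a n := by
      intro n hn
      induction n, hn using Nat.le_induction with
      | base => push_cast; linarith
      | succ k hk ih =>
        have := hlow k hk
        push_cast
        linarith
    exact key n hn
  · refine le_of_tendsto ht ?_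
    filter_upwards [eventually_ge_atTop 1] with n hn
    have hn0 : (0 : ℝ) < n := by exact_mod_cast hn
    rw [div_le_iff₀ hn0]
    have key : ∀ n : ℕ, 1 ≤ n → a n ≤ a 1 * n := by
      intro n hn
      induction n, hn using Nat.le_induction with
      | base => push_cast; linarith
      | succ k hk ih =>
        have := hsub k 1
        push_cast
        linarith
    exact key n hn

/-- `D = -log F` along the powers of a cyclically aligned element -/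
theorem sym_D (Q : Geo Γ) (F : Γ → ℝ) (hF : GF Q F) (C₂ : ℝ) : ∃ K : ℝ, 0 ≤ K ∧ ∀ h : Γ,
    (∀ n : ℕ, 1 ≤ n → Q.L (h ^ n) + Q.L h ≤ Q.L (h ^ (n + 1)) + C₂) →
    ∃ l, Tendsto (fun n : ℕ => -Real.log (F (h ^ n)) / n) atTop (𝓝 l) ∧
      -Real.log (F h) - K ≤ l ∧ l ≤ -Real.log (F h) := by
  obtain ⟨K₁, hK₁0, hK₁⟩ := qadd_one Q F hF C₂
  refine ⟨K₁ + |C₂|, by positivity, fun h hh => ?_⟩
  have hs := sym_lim (fun n => -Real.log (F (h ^ n))) (K₁ + |C₂|) (by positivity) ?_ ?_ ?_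
  · simpa using hs
  · intro m n
    have h1 := hF.mul (h ^ m) (h ^ n)
    have h2 := Real.log_le_log (mul_pos (hF.pos _) (hF.pos _)) h1
    rw [Real.log_mul (hF.pos _).ne' (hF.pos _).ne', ← pow_add] at h2
    linarith
  · intro n
    have := Real.log_nonpos (hF.pos (h ^ n)).le (hF.le_one (h ^ n))
    linarith
  · intro n hn
    have h1 := hh n hn
    have h2 := hK₁ (h ^ n) h (by rw [← pow_succ]; exact h1)
    rw [← pow_succ] at h2
    have h3 := (abs_le.1 h2).1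
    have h4 := Q.mul (h ^ n) h
    rw [← pow_succ] at h4
    have h5 := le_abs_self C₂
    unfold uu at h3
    rw [pow_one]
    linarith

theorem st_SYM (hL : ST_L2G) : ST_SYM := by
  intro Γ _ Q F hF hS
  obtain ⟨Cf, C₁, hCf, hcl⟩ := lin_close Q
  obtain ⟨H₁, C₂, hC₂, hL2⟩ := hL Q C₁
  obtain ⟨K₁, hK₁0, hK₁⟩ := sym_D Q F hF C₂
  obtain ⟨K₂, hK₂0, hK₂⟩ := qadd_two Q F hF Cf
  obtain ⟨K₃, hK₃0, hK₃⟩ := qadd_ball Q F (max H₁ 1 + Cf)
  refine ⟨2 * K₁ + 2 * C₂ + 2 * K₂ + 2 * K₃, fun g => ?_⟩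
  obtain ⟨f, hf, hal⟩ := hcl g
  by_cases hbig : max H₁ 1 ≤ Q.L (g * f)
  · have hH₁ : H₁ ≤ Q.L (g * f) := (le_max_left _ _).trans hbig
    have hH₂ : 1 ≤ Q.L (g * f) := (le_max_right _ _).trans hbig
    have hu1 := (abs_le.1 (hK₂ g f hf).1)
    have hu2 := (abs_le.1 (hK₂ g⁻¹ f⁻¹ (by rw [Q.inv]; exact hf)).2)
    have hinv : f⁻¹ * g⁻¹ = (g * f)⁻¹ := (mul_inv_rev g f).symm
    rw [hinv] at hu2
    set h := g * f with hh
    have hne : h ≠ 1 := by
      intro h1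
      rw [h1, Q.one] at hH₂
      linarith
    have halg := hL2 h hal hH₁
    have hLinv : ∀ n : ℕ, Q.L (h⁻¹ ^ n) = Q.L (h ^ n) := fun n => by rw [inv_pow, Q.inv]
    have halg' : ∀ n : ℕ, 1 ≤ n → Q.L (h⁻¹ ^ n) + Q.L h⁻¹ ≤ Q.L (h⁻¹ ^ (n + 1)) + C₂ := by
      intro n hn
      rw [hLinv, hLinv, Q.inv]
      exact halg n hn
    obtain ⟨a, ha, ha1, ha2⟩ := hK₁ h halg
    obtain ⟨b, hb, hb1, hb2⟩ := hK₁ h⁻¹ halg'
    obtain ⟨c, hc, hc1, hc2⟩ := sym_lim (fun n => Q.L (h ^ n)) C₂ hC₂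
      (fun m n => by rw [pow_add]; exact Q.mul _ _) (fun n => Q.nonneg _)
      (fun n hn => by rw [pow_one]; exact halg n hn)
    rw [pow_one] at hc1 hc2
    have heq := hS h hne a b c ha hb hc
    have hLi := Q.inv h
    unfold uu at hu1 hu2 ⊢
    rw [abs_le]
    constructor <;> linarith [hu1.1, hu1.2, hu2.1, hu2.2, Q.inv h, Q.inv g]
  · have hLg : Q.L g ≤ max H₁ 1 + Cf := by
      have h1 := Q.mul (g * f) f⁻¹
      rw [mul_inv_cancel_right, Q.inv] at h1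
      linarith [not_le.1 hbig]
    have h1 := abs_le.1 (hK₃ g hLg)
    have h2 := abs_le.1 (hK₃ g⁻¹ (by rw [Q.inv]; exact hLg))
    rw [abs_le]
    constructor <;> linarith [h1.1, h1.2, h2.1, h2.2]

end Pool.Agent.Helper12.GM
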