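import Pool.Agent.Helper12.GM.Stmts

/-! # Module QADD -/

set_option autoImplicit false

namespace Pool.Agent.Helper12.GM

variable {Γ : Type} [Group Γ]

/-- aligned products -/
theorem qadd_one (Q : Geo Γ) (F : Γ → ℝ) (hF : GF Q F) (C₁ : ℝ) : ∃ K' : ℝ, 0 ≤ K' ∧ ∀ g h,
    Q.L g + Q.L h ≤ Q.L (g * h) + C₁ → |uu Q F (g * h) - uu Q F g - uu Q F h| ≤ K' := by
  obtain ⟨K, hK⟩ := hF.anc C₁
  refine ⟨|Real.log K| + |C₁|, by positivity, fun g h hgh => ?_⟩
  have h1 := hK g h hgh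
  have hg := hF.pos g
  have hh := hF.pos h
  have hm := hF.mul g h
  have hgh0 := hF.pos (g * h)
  have hKpos : 0 < K := by
    by_contra hcon
    have : K * (F g * F h) ≤ 0 := mul_nonpos_of_nonpos_of_nonneg (not_lt.1 hcon) (by positivity)
    linarith
  have l1 : Real.log (F g) + Real.log (F h) ≤ Real.log (F (g * h)) := by
    rw [← Real.log_mul hg.ne' hh.ne']
    exact Real.log_le_log (by positivity) hm
  have l2 : Real.log (F (g * h)) ≤ Real.log K + (Real.log (F g) + Real.log (F h)) := by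
    rw [← Real.log_mul hg.ne' hh.ne', ← Real.log_mul hKpos.ne' (by positivity)]
    exact Real.log_le_log hgh0 h1
  have m1 := Q.mul g h
  have a1 := le_abs_self (Real.log K)
  have a2 := le_abs_self C₁
  have a3 := abs_nonneg (Real.log K)
  have a4 := abs_nonneg C₁
  unfold uu
  rw [abs_le]
  constructor <;> linarith

/-- `|u|` is bounded on balls -/
theorem qadd_ball (Q : Geo Γ) (F : Γ → ℝ) (r : ℝ) : ∃ K' : ℝ, 0 ≤ K' ∧ ∀ f, Q.L f ≤ r →
    |uu Q F f| ≤ K' := by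
  obtain ⟨K, hK⟩ := ((Q.fin r).image (fun f => |uu Q F f|)).bddAbove
  refine ⟨max K 0, le_max_right _ _, fun f hf => ?_⟩
  exact (hK ⟨f, hf, rfl⟩).trans (le_max_left _ _)

theorem qadd_two (Q : Geo Γ) (F : Γ → ℝ) (hF : GF Q F) (r : ℝ) : ∃ K' : ℝ, 0 ≤ K' ∧ ∀ g f,
    Q.L f ≤ r → |uu Q F (g * f) - uu Q F g| ≤ K' ∧ |uu Q F (f * g) - uu Q F g| ≤ K' := by
  obtain ⟨K1, hK10, hK1⟩ := qadd_one Q F hF (2 * r)
  obtain ⟨K2, hK20, hK2⟩ := qadd_ball Q F r
  refine ⟨K1 + K2, by positivity, fun g f hf => ⟨?_, ?_⟩⟩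
  · have e1 : Q.L g ≤ Q.L (g * f) + Q.L f := by
      have := Q.mul (g * f) f⁻¹
      rwa [mul_inv_cancel_right, Q.inv] at this
    have h1 := hK1 g f (by linarith)
    have h2 := hK2 f hf
    rw [abs_le] at h1 h2 ⊢
    constructor <;> linarith [h1.1, h1.2, h2.1, h2.2]
  · have e1 : Q.L g ≤ Q.L f + Q.L (f * g) := by
      have := Q.mul f⁻¹ (f * g)
      rwa [inv_mul_cancel_left, Q.inv] at this
    have h1 := hK1 f g (by linarith)
    have h2 := hK2 f hf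
    rw [abs_le] at h1 h2 ⊢
    constructor <;> linarith [h1.1, h1.2, h2.1, h2.2]

theorem st_QADD : ST_QADD := by
  intro Γ _ Q F hF
  refine ⟨fun C₁ => ?_, fun r => ?_⟩
  · obtain ⟨K, _, hK⟩ := qadd_one Q F hF C₁
    exact ⟨K, hK⟩
  · obtain ⟨K, _, hK⟩ := qadd_two Q F hF r
    exact ⟨K, hK⟩

end Pool.Agent.Helper12.GM
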