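import Pool.Agent.Helper12.GM.LibF

/-! # Hyperbolic plane in coordinates (helper78) -/

set_option autoImplicit false

open scoped UpperHalfPlane MatrixGroups ComplexConjugate
open UpperHalfPlane

namespace Pool.Agent.Helper12.GM

/-- the point `x + i h` -/
def hpt (x h : ℝ) (hh : 0 < h) : ℍ := ⟨⟨x, h⟩, hh⟩

theorem hpt_re (x h : ℝ) (hh : 0 < h) : (hpt x h hh).re = x := rfl

theorem hpt_im (x h : ℝ) (hh : 0 < h) : (hpt x h hh).im = h := rfl

theorem hyp_dist_sq (z w : ℍ) :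
    dist (z : ℂ) (w : ℂ) ^ 2 = (z.re - w.re) ^ 2 + (z.im - w.im) ^ 2 := by
  rw [Complex.dist_eq, Complex.sq_norm, Complex.normSq_apply]
  simp only [Complex.sub_re, Complex.sub_im, UpperHalfPlane.coe_re, UpperHalfPlane.coe_im]
  ring

theorem hyp_cosh (z w : ℍ) : Real.cosh (dist z w) =
    1 + ((z.re - w.re) ^ 2 + (z.im - w.im) ^ 2) / (2 * z.im * w.im) := by
  rw [UpperHalfPlane.cosh_dist, hyp_dist_sq]

theorem hyp_two_cosh (z w : ℍ) : 2 * Real.cosh (dist z w) =
    ((z.re - w.re) ^ 2 + z.im ^ 2 + w.im ^ 2) / (z.im * w.im) := by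
  rw [hyp_cosh]
  have h1 := z.im_pos.ne'
  have h2 := w.im_pos.ne'
  field_simp
  ring

theorem hyp_im_le (z w : ℍ) : w.im ≤ Real.exp (dist z w) * z.im := by
  have h1 := UpperHalfPlane.dist_log_im_le z w
  rw [Real.dist_eq, abs_le] at h1
  have h2 : Real.log w.im ≤ dist z w + Real.log z.im := by linarith [h1.1]
  have h3 := Real.exp_le_exp.2 h2
  rwa [Real.exp_log w.im_pos, Real.exp_add, Real.exp_log z.im_pos] at h3

theorem hyp_re_le (z w : ℍ) (r : ℝ) (h : dist z w ≤ r) :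
    |z.re - w.re| ≤ 2 * Real.sinh (r / 2) * Real.exp (r / 2) * z.im := by
  have hr : 0 ≤ r := dist_nonneg.trans h
  have h1 := UpperHalfPlane.sinh_half_dist z w
  have hz := z.im_pos
  have hw := w.im_pos
  have hs : 0 < √(z.im * w.im) := Real.sqrt_pos.2 (mul_pos hz hw)
  have h2 : dist (z : ℂ) w = 2 * Real.sinh (dist z w / 2) * √(z.im * w.im) := by
    rw [h1]
    field_simp
  have h3 : |z.re - w.re| ≤ dist (z : ℂ) w := by
    rw [Complex.dist_eq]
    have := Complex.abs_re_le_norm ((z : ℂ) - w)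
    simpa using this
  have h4 : Real.sinh (dist z w / 2) ≤ Real.sinh (r / 2) := Real.sinh_le_sinh.2 (by linarith)
  have h5 : √(z.im * w.im) ≤ Real.exp (r / 2) * z.im := by
    have h6 : w.im ≤ Real.exp r * z.im :=
      (hyp_im_le z w).trans (mul_le_mul_of_nonneg_right (Real.exp_le_exp.2 h) hz.le)
    have h7 : z.im * w.im ≤ (Real.exp (r / 2) * z.im) ^ 2 := by
      have e : (Real.exp (r / 2) * z.im) ^ 2 = z.im * (Real.exp r * z.im) := by
        have e2 : Real.exp r = Real.exp (r / 2) * Real.exp (r / 2) := by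
          rw [← Real.exp_add]; congr 1; ring
        rw [e2]; ring
      rw [e]
      exact mul_le_mul_of_nonneg_left h6 hz.le
    exact (Real.sqrt_le_sqrt h7).trans (le_of_eq (Real.sqrt_sq (by positivity)))
  have h8 : 0 ≤ Real.sinh (dist z w / 2) :=
    Real.sinh_nonneg_iff.2 (by have := @dist_nonneg _ _ z w; linarith)
  rw [h2] at h3
  refine h3.trans ?_
  rw [mul_assoc (2 * Real.sinh (r / 2))]
  refine mul_le_mul (by linarith) h5 hs.le ?_
  have := h8.trans h4
  linarith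

/-- distance to the imaginary axis in a sector -/
theorem hyp_axis (z : ℍ) (κ : ℝ) (hκ : |z.re| ≤ κ * z.im) :
    dist z (hpt 0 z.im z.im_pos) ≤ κ ^ 2 + 2 := by
  have hz := z.im_pos
  have h1 : Real.cosh (dist z (hpt 0 z.im z.im_pos)) = 1 + z.re ^ 2 / (2 * z.im ^ 2) := by
    rw [hyp_cosh, hpt_re, hpt_im]
    congr 1
    rw [sub_self, sub_zero]
    ring
  have h2 : z.re ^ 2 ≤ κ ^ 2 * z.im ^ 2 := by
    rw [← sq_abs z.re, ← mul_pow]
    exact pow_le_pow_left₀ (abs_nonneg _) hκ 2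
  have h3 : z.re ^ 2 / (2 * z.im ^ 2) ≤ κ ^ 2 / 2 := by
    rw [div_le_div_iff₀ (by positivity) (by norm_num)]
    nlinarith
  have h4 : Real.exp (dist z (hpt 0 z.im z.im_pos)) / 2 ≤
      Real.cosh (dist z (hpt 0 z.im z.im_pos)) := by
    rw [Real.cosh_eq]
    have := Real.exp_pos (-dist z (hpt 0 z.im z.im_pos))
    linarith
  have h5 := Real.add_one_le_exp (dist z (hpt 0 z.im z.im_pos))
  linarith

/-- `dist ≤ log (2 cosh) ≤ dist + log 2` in exponential form -/
theorem hyp_exp_le (z w : ℍ) : Real.exp (dist z w) ≤ 2 * Real.cosh (dist z w) := by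
  rw [Real.cosh_eq]
  have := Real.exp_pos (-dist z w)
  linarith

theorem hyp_le_exp (z w : ℍ) : Real.cosh (dist z w) ≤ Real.exp (dist z w) := by
  rw [Real.cosh_eq]
  have := Real.exp_le_exp.2 (show -dist z w ≤ dist z w by
    have := @dist_nonneg _ _ z w
    linarith)
  linarith

end Pool.Agent.Helper12.GM
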